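import Pool.Agent.H61.UN.Tl
import Pool.Agent.H79.LS.Gs

/-!
# [H79 LS TB] The number of rough families in a box of short intervals, with the Gaussian weight

`totalB`: `∑_{N ∈ Tx x} gw x N #{h ∈ RJ ι x a L N : h j ∈ I j} ≤ C x ∏ #(I j) / (log x)^(card ι)`, `C` depending on `ι`, `a` only.
`rough_count` (H61/UN/Rc), `mean_box` (Gs), and the Gaussian weight as in `tail`, `total` (H61/UN/Tl).
-/

namespace Pool.Agent.H79.LS

open Finset Filter Pool.Agent.H21.MT Pool.Agent.H92.MM Pool.Agent.H61.UN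

/-- the Gaussian weight against a function with bounded averages -/
theorem gauss_gen (x : ℝ) (hx4 : 4 ≤ x) (F : ℕ → ℝ) (hF : ∀ N, 0 ≤ F N) (A0 : ℝ) (hA0 : 0 ≤ A0)
    (hY : ∀ Y : ℕ, Real.sqrt x ≤ (Y : ℝ) → ∑ N ∈ Ioc 0 Y, F N ≤ A0 * Y) :
    ∑ N ∈ Tx x, gw x N * F N ≤ (4 * Real.exp (9 / 2) + 1) * A0 * x := by
  classical
  have hx0 : 0 < x := by linarith
  have hfl : Real.sqrt x ≤ (⌊x⌋₊ : ℝ) := by
    have h1 := Nat.lt_floor_add_one x
    have h2 : 2 ≤ Real.sqrt x := by
      rw [show (2 : ℝ) = Real.sqrt 4 by rw [show (4 : ℝ) = 2 ^ 2 by norm_num, Real.sqrt_sq (by norm_num)]]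
      exact Real.sqrt_le_sqrt hx4
    have h3 := Real.mul_self_sqrt hx0.le
    nlinarith
  rw [← sum_filter_add_sum_filter_not (Tx x) (fun N : ℕ => x < (N : ℝ))]
  -- near part
  have h1 : ∑ N ∈ (Tx x).filter (fun N : ℕ => ¬ x < (N : ℝ)), gw x N * F N ≤ A0 * x := by
    calc ∑ N ∈ (Tx x).filter (fun N : ℕ => ¬ x < (N : ℝ)), gw x N * F N
        ≤ ∑ N ∈ (Tx x).filter (fun N : ℕ => ¬ x < (N : ℝ)), F N := by
          refine sum_le_sum fun N _ => ?_
          refine mul_le_of_le_one_left (hF N) ?_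
          unfold gw
          rw [Real.exp_le_one_iff]
          have := sq_nonneg (Real.log (N / x))
          linarith
      _ ≤ ∑ N ∈ Ioc 0 ⌊x⌋₊, F N := by
          apply sum_le_sum_of_subset_of_nonneg
          · intro N hN
            rw [mem_filter] at hN
            have h2 := hN.1
            unfold Tx at h2
            rw [mem_Ioc] at h2
            rw [mem_Ioc]
            refine ⟨by omega, Nat.le_floor ?_⟩
            have h3 := hN.2
            push Not at h3
            linarith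
          · exact fun _ _ _ => hF _
      _ ≤ A0 * (⌊x⌋₊ : ℝ) := hY _ hfl
      _ ≤ A0 * x := mul_le_mul_of_nonneg_left (Nat.floor_le hx0.le) hA0
  -- far part
  obtain ⟨A, hA⟩ : ∃ A : Finset ℕ, A = (Tx x).filter (fun N : ℕ => x < (N : ℝ)) := ⟨_, rfl⟩
  rw [← hA]
  obtain ⟨j, hj⟩ : ∃ j : ℕ → ℕ, j = fun N : ℕ => Nat.log 2 ⌊(N : ℝ) / x⌋₊ := ⟨_, rfl⟩
  have hjN : ∀ N ∈ A, (2 : ℝ) ^ j N * x ≤ N ∧ (N : ℝ) < 2 ^ (j N + 1) * x := by
    intro N hN
    rw [hA, mem_filter] at hN
    have h1 : 1 ≤ (N : ℝ) / x := by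
      rw [le_div_iff₀ hx0, one_mul]
      exact hN.2.le
    have h2 : 1 ≤ ⌊(N : ℝ) / x⌋₊ := Nat.le_floor (by exact_mod_cast h1)
    have h3 := Nat.pow_log_le_self 2 (x := ⌊(N : ℝ) / x⌋₊) (by omega)
    have h4 := Nat.lt_pow_succ_log_self (b := 2) (by norm_num) ⌊(N : ℝ) / x⌋₊
    have h5 : j N = Nat.log 2 ⌊(N : ℝ) / x⌋₊ := by rw [hj]
    rw [← h5] at h3 h4
    constructor
    · have h6 : ((2 ^ j N : ℕ) : ℝ) ≤ (⌊(N : ℝ) / x⌋₊ : ℝ) := by exact_mod_cast h3
      have h7 := Nat.floor_le (show (0 : ℝ) ≤ (N : ℝ) / x by positivity)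
      rw [← le_div_iff₀ hx0]
      push_cast at h6
      linarith
    · have h6 : (⌊(N : ℝ) / x⌋₊ : ℝ) + 1 ≤ ((2 ^ (j N).succ : ℕ) : ℝ) := by exact_mod_cast h4
      have h7 := Nat.lt_floor_add_one ((N : ℝ) / x)
      rw [← div_lt_iff₀ hx0]
      push_cast at h6
      rw [Nat.succ_eq_add_one] at h6
      linarith
  have hfar : ∑ N ∈ A, gw x N * F N ≤ 4 * Real.exp (9 / 2) * A0 * x := by
    rw [← sum_fiberwise_of_maps_to (s := A) (t := A.image j) (g := j) (fun N hN => mem_image_of_mem j hN)]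
    have hpiece : ∀ i ∈ A.image j, ∑ N ∈ A.filter (fun N => j N = i), gw x N * F N ≤
        2 * Real.exp (9 / 2) * A0 * x * (1 / 4) ^ i := by
      intro i _
      have h1 : ∀ N ∈ A.filter (fun N => j N = i), gw x N * F N ≤
          Real.exp (9 / 2) * (1 / (2 ^ i)) ^ 3 * F N := by
        intro N hN
        rw [mem_filter] at hN
        have h2 := (hjN N hN.1).1
        rw [hN.2] at h2
        have hN0 : (0 : ℝ) < N := lt_of_lt_of_le (by positivity) h2
        have hN1 : 1 ≤ N := by exact_mod_cast hN0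
        refine mul_le_mul_of_nonneg_right ((gw_le_cube hx0 hN1).trans ?_) (hF N)
        refine mul_le_mul_of_nonneg_left ?_ (Real.exp_pos _).le
        refine pow_le_pow_left₀ (by positivity) ?_ 3
        rw [div_le_div_iff₀ hN0 (by positivity), one_mul]
        calc x * 2 ^ i = 2 ^ i * x := by ring
          _ ≤ N := h2
      refine (sum_le_sum h1).trans ?_
      rw [← mul_sum]
      obtain ⟨Y, hYd⟩ : ∃ Y : ℕ, Y = ⌊2 ^ (i + 1) * x⌋₊ := ⟨_, rfl⟩
      have hYle : (Y : ℝ) ≤ 2 ^ (i + 1) * x := by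
        rw [hYd]
        exact Nat.floor_le (by positivity)
      have h2i : (1 : ℝ) ≤ 2 ^ (i + 1) := one_le_pow₀ (by norm_num)
      have hYge : Real.sqrt x ≤ Y := by
        refine hfl.trans ?_
        rw [hYd]
        have : ⌊x⌋₊ ≤ ⌊2 ^ (i + 1) * x⌋₊ := Nat.floor_le_floor (le_mul_of_one_le_left hx0.le h2i)
        exact_mod_cast this
      have h3 : ∑ N ∈ A.filter (fun N => j N = i), F N ≤ ∑ N ∈ Ioc 0 Y, F N := by
        apply sum_le_sum_of_subset_of_nonneg
        · intro N hN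
          rw [mem_filter] at hN
          have h4 := hjN N hN.1
          rw [hN.2] at h4
          have hN0 : (0 : ℝ) < N := lt_of_lt_of_le (by positivity) h4.1
          have hN1 : 0 < N := by exact_mod_cast hN0
          rw [mem_Ioc]
          refine ⟨hN1, ?_⟩
          rw [hYd]
          exact Nat.le_floor h4.2.le
        · exact fun _ _ _ => hF _
      have h4 := (h3.trans (hY Y hYge)).trans (mul_le_mul_of_nonneg_left hYle hA0)
      have h5 := mul_le_mul_of_nonneg_left h4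
        (show (0 : ℝ) ≤ Real.exp (9 / 2) * (1 / (2 ^ i)) ^ 3 by positivity)
      refine h5.trans (le_of_eq ?_)
      have h7 : (2 : ℝ) ^ (i + 1) = 2 * 2 ^ i := by ring
      have h8 : (1 / 4 : ℝ) ^ i = 1 / ((2 : ℝ) ^ i) ^ 2 := by
        rw [one_div_pow, ← pow_mul, mul_comm i 2, pow_mul]
        norm_num
      rw [h7, h8]
      field_simp
    refine (sum_le_sum hpiece).trans ?_
    rw [← mul_sum]
    have hsum : ∑ i ∈ A.image j, (1 / 4 : ℝ) ^ i ≤ 2 := by
      have h1 : Summable (fun i : ℕ => (1 / 4 : ℝ) ^ i) := summable_geometric_of_lt_one (by norm_num) (by norm_num)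
      have h2 := h1.sum_le_tsum (A.image j) (fun i _ => by positivity)
      rw [tsum_geometric_of_lt_one (by norm_num) (by norm_num)] at h2
      refine h2.trans ?_
      norm_num
    have h1 : (0 : ℝ) ≤ 2 * Real.exp (9 / 2) * A0 * x := by positivity
    refine (mul_le_mul_of_nonneg_left hsum h1).trans (le_of_eq ?_)
    ring
  have h2 := add_le_add hfar h1
  refine h2.trans (le_of_eq ?_)
  ring

open Classical in
/-- the box version of `mom_fac` -/
theorem mom_box (ι : Type) [Fintype ι] [DecidableEq ι] [Nonempty ι] (a : ℝ) (ha : 0 < a) :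
    ∃ C : ℝ, 0 < C ∧ ∀ᶠ x : ℝ in atTop, ∀ I : ι → Finset ℕ, BoxAt x I → ∀ Y : ℕ,
      Real.sqrt x ≤ (Y : ℝ) →
      ∑ N ∈ Ioc 0 Y, (((Fintype.piFinset I).filter (fun h => Function.Injective h ∧
        ∀ i, Rgh (x ^ a) (N + h i))).card : ℝ) ≤
        C * (∏ k, ((I k).card : ℝ)) / Real.log x ^ Fintype.card ι * Y := by
  obtain ⟨C1, hC1, h1⟩ := rough_count ι a ha
  obtain ⟨C2, hC2, h2⟩ := mean_box ι (2 * Fintype.card ι)
  refine ⟨C1 * C2, mul_pos hC1 hC2, ?_⟩
  filter_upwards [h1, h2, eventually_gt_atTop (1 : ℝ)] with x hx hx2 hx1 I hI Y hY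
  have hlog : 0 < Real.log x := Real.log_pos hx1
  have e1 : ∑ N ∈ Ioc 0 Y, (((Fintype.piFinset I).filter (fun h => Function.Injective h ∧
        ∀ i, Rgh (x ^ a) (N + h i))).card : ℝ) =
      ∑ h ∈ (Fintype.piFinset I).filter Function.Injective,
        (((Ioc 0 Y).filter (fun N => ∀ i, Rgh (x ^ a) (N + h i))).card : ℝ) := by
    have e2 : ∀ N ∈ Ioc 0 Y, (((Fintype.piFinset I).filter (fun h => Function.Injective h ∧
        ∀ i, Rgh (x ^ a) (N + h i))).card : ℝ) =
        ∑ h ∈ (Fintype.piFinset I).filter Function.Injective,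
          if (∀ i, Rgh (x ^ a) (N + h i)) then (1 : ℝ) else 0 := by
      intro N _
      rw [← filter_filter, sum_boole]
    rw [sum_congr rfl e2, sum_comm]
    refine sum_congr rfl (fun h _ => ?_)
    rw [sum_boole]
  rw [e1]
  calc ∑ h ∈ (Fintype.piFinset I).filter Function.Injective,
        (((Ioc 0 Y).filter (fun N => ∀ i, Rgh (x ^ a) (N + h i))).card : ℝ)
      ≤ ∑ h ∈ (Fintype.piFinset I).filter Function.Injective,
        C1 * Y * gf (dd h) ^ (2 * Fintype.card ι) / Real.log x ^ Fintype.card ι := by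
        refine sum_le_sum (fun h hh => ?_)
        exact hx h (mem_filter.1 hh).2 Y hY
    _ = C1 * Y / Real.log x ^ Fintype.card ι *
          ∑ h ∈ (Fintype.piFinset I).filter Function.Injective,
            gf (dd h) ^ (2 * Fintype.card ι) := by
        rw [mul_sum]
        refine sum_congr rfl (fun h _ => ?_)
        ring
    _ ≤ C1 * Y / Real.log x ^ Fintype.card ι * (C2 * ∏ k, ((I k).card : ℝ)) := by
        refine mul_le_mul_of_nonneg_left (hx2 I hI) ?_
        positivity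
    _ = C1 * C2 * (∏ k, ((I k).card : ℝ)) / Real.log x ^ Fintype.card ι * Y := by
        ring

open Classical in
/-- **the box version of `total`** -/
theorem totalB (ι : Type) [Fintype ι] [DecidableEq ι] [Nonempty ι] (a : ℝ) (ha : 0 < a) :
    ∃ C : ℝ, 0 < C ∧ ∀ᶠ x : ℝ in atTop, ∀ (L : ℕ) (I : ι → Finset ℕ), BoxAt x I →
      ∑ N ∈ Tx x, gw x N * (((RJ ι x a L N).filter (fun h => ∀ j, h j ∈ I j)).card : ℝ) ≤
        C * x * (∏ k, ((I k).card : ℝ)) / Real.log x ^ Fintype.card ι := by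
  obtain ⟨C, hC, hm⟩ := mom_box ι a ha
  refine ⟨(4 * Real.exp (9 / 2) + 1) * C, by positivity, ?_⟩
  filter_upwards [hm, eventually_ge_atTop (4 : ℝ)] with x hx hx4 L I hI
  have hlog : 0 < Real.log x := Real.log_pos (by linarith)
  have h1 := gauss_gen x hx4 (fun N => (((Fintype.piFinset I).filter (fun h => Function.Injective h ∧
        ∀ i, Rgh (x ^ a) (N + h i))).card : ℝ)) (fun N => Nat.cast_nonneg _)
    (C * (∏ k, ((I k).card : ℝ)) / Real.log x ^ Fintype.card ι) (by positivity) (hx I hI)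
  refine le_trans (sum_le_sum fun N _ => ?_) (h1.trans (le_of_eq (by ring)))
  refine mul_le_mul_of_nonneg_left ?_ (gw_pos x N).le
  have h2 : ((RJ ι x a L N).filter (fun h => ∀ j, h j ∈ I j)).card ≤
      ((Fintype.piFinset I).filter (fun h => Function.Injective h ∧
        ∀ i, Rgh (x ^ a) (N + h i))).card := by
    refine card_le_card fun h hh => ?_
    rw [mem_filter, mem_RJ] at hh
    rw [mem_filter, Fintype.mem_piFinset]
    exact ⟨hh.2, hh.1.1.2, hh.1.2⟩
  exact_mod_cast h2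

end Pool.Agent.H79.LS
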